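import Pool.Agent.W29.FSq

/-!
# Four squares `n = x² + y² + z² + w²` with control of the prime factors of `2^(x+y) + 2^(z+w) + 1`

For odd `n` and `L` and a prime `p` with `576 (p L)² ≤ n` there is a representation
`n = x² + y² + z² + w²` in natural numbers for which `2^(x+y) + 2^(z+w) + 1` is coprime to
`p (2^(8L) - 1)`. So no single prime `p ≤ √n / 24` divides all the numbers
`2^(x+y) + 2^(z+w) + 1` that belong to `n`. With `L` the product of the odd numbers up to `Y` one
representation avoids all primes `q ≤ Y` for which `16` does not divide the order of `2` modulo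
`q`.
-/

set_option autoImplicit false

namespace Pool.Agent.Results.MP_1e1427_nt.SmallPrimeFactors

/-- Every odd `n` has for every odd `L` and every prime `p` with `576 (p L)² ≤ n` a
representation `n = x² + y² + z² + w²` such that `2^(x+y) + 2^(z+w) + 1` is coprime to
`p (2^(8L) - 1)`. -/
theorem result (n L p : ℕ) (hn : Odd n) (hL : Odd L) (hp : p.Prime)
    (h : 576 * (p * L) ^ 2 ≤ n) :
    ∃ x y z w : ℕ, n = x ^ 2 + y ^ 2 + z ^ 2 + w ^ 2 ∧
      Nat.Coprime (2 ^ (x + y) + 2 ^ (z + w) + 1) (p * (2 ^ (8 * L) - 1)) :=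
  Pool.Agent.W29.FSq.main hn hL hp h

end Pool.Agent.Results.MP_1e1427_nt.SmallPrimeFactors
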